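import Pool.Agent.helper92.ISO.SpecG

set_option autoImplicit false

namespace Pool.Agent.ISO

open Pool.Agent.PB

theorem DES_avg {R m κ : ℕ} {q : ℝ} {μ : Finset (Fin R) → ℝ} (hμ : Strat R m μ) (hv : ValLe κ q μ)
    (ρ : Finset (Fin R) → ℝ) (h0 : ∀ T, 0 ≤ ρ T) (h1 : ∑ T, ρ T = 1) :
    ∃ K : Finset (Fin R), (1 ≤ K.card ∧ K.card ≤ m) ∧ ∑ T with Hit κ T K, ρ T ≤ q := by
  by_contra hne
  push Not at hne
  have h2 : ∑ K, μ K * (∑ T with Hit κ T K, ρ T) = ∑ T, ρ T * (∑ K with Hit κ T K, μ K) := by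
    simp only [Finset.sum_filter, Finset.mul_sum]
    rw [Finset.sum_comm]
    refine Finset.sum_congr rfl fun T _ => Finset.sum_congr rfl fun K _ => ?_
    split_ifs
    · ring
    · ring
  have h3 : ∑ T, ρ T * (∑ K with Hit κ T K, μ K) ≤ q := by
    calc ∑ T, ρ T * (∑ K with Hit κ T K, μ K) ≤ ∑ T, ρ T * q :=
          Finset.sum_le_sum fun T _ => mul_le_mul_of_nonneg_left (hv T) (h0 T)
      _ = q := by rw [← Finset.sum_mul, h1, one_mul]
  have h4 : ∃ K, μ K ≠ 0 := by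
    by_contra h
    push Not at h
    have h5 := hμ.sum
    rw [Finset.sum_eq_zero fun K _ => h K] at h5
    exact zero_ne_one h5
  have h6 : ∑ K, μ K * q < ∑ K, μ K * (∑ T with Hit κ T K, ρ T) := by
    refine Finset.sum_lt_sum (fun K _ => ?_) ?_
    · by_cases hK : μ K = 0
      · rw [hK, zero_mul, zero_mul]
      · exact mul_le_mul_of_nonneg_left (hne K (hμ.supp K hK)).le (hμ.nonneg K)
    · obtain ⟨K, hK⟩ := h4
      exact ⟨K, Finset.mem_univ _, mul_lt_mul_of_pos_left (hne K (hμ.supp K hK))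
        (lt_of_le_of_ne (hμ.nonneg K) (Ne.symm hK))⟩
  rw [← Finset.sum_mul, hμ.sum, one_mul, h2] at h6
  linarith

theorem DES_proof (hPTU : PTU_stmt) : DES_stmt := by
  intro R m κ M q lam μ hl hl1 hμ hv
  obtain ⟨L, hL⟩ := hPTU (Finset (Fin R)) {K : Finset (Fin R) // 1 ≤ K.card ∧ K.card ≤ m}
    (fun K T => Hit κ T K.1) q lam M hl hl1 (by
      intro ρ h0 h1
      obtain ⟨K, hK, h2⟩ := DES_avg hμ hv ρ h0 h1
      refine ⟨⟨K, hK⟩, ?_⟩
      refine le_trans (le_of_eq ?_) h2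
      refine Finset.sum_congr ?_ fun _ _ => rfl
      exact Finset.filter_congr_decidable _ _ _)
  refine ⟨fun e => (L e).1, fun e => (L e).2, fun T => ?_⟩
  have h3 := hL T
  have h4 : Real.log (Fintype.card (Finset (Fin R))) = R * Real.log 2 := by
    rw [Fintype.card_finset, Fintype.card_fin]
    push_cast
    rw [Real.log_pow]
  rw [h4] at h3
  refine le_trans (le_of_eq ?_) h3
  refine congrArg Nat.cast (congrArg Finset.card ?_)
  exact (Finset.filter_congr_decidable _ _ _).symm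

end Pool.Agent.ISO
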